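import Pool.Agent.Helper20.RG.St1

/-!
# Project RG, module RID
-/

set_option autoImplicit false

open MeasureTheory Set Filter Topology
open scoped ENNReal RealInnerProductSpace

namespace Pool.Agent.Helper86.RG

open Pool.Agent.Helper68.LM (Pl)
open Pool.Agent.Helper20.RG

theorem meas_coord (i : Fin 2) : Measurable fun y : Pl => y i := by
  have : Continuous fun y : Pl => y i := by fun_prop
  exact this.measurable

theorem meas_pr (s : ℝ) : Measurable fun y : Pl => pr s y := by
  unfold pr
  exact (meas_coord 1).sub ((meas_coord 0).const_mul s)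

/-- RID -/
theorem hRID (hPT : StPT) : StRID := by
  obtain ⟨hpt, -, -, -, -, hF, -, hSq⟩ := hPT
  intro s x r h F hs hh hhr hFm hFs
  have hr : 0 ≤ r := hh.trans hhr
  have hSm : MeasurableSet {y : Pl | y ∈ Sq x r ∧ pr s y ∈ F} :=
    ((hSq x r hr).1).inter (meas_pr s hFm)
  set S : Set Pl := {y : Pl | y ∈ Sq x r ∧ pr s y ∈ F} with hS
  have h1 : volume S = ∫⁻ y, S.indicator 1 y := by
    rw [lintegral_indicator_one hSm]
  rw [h1, hF _ (measurable_one.indicator hSm)]
  have h2 : ∀ a ∈ Icc (x 0 - h) (x 0 + h), volume F ≤ ∫⁻ b : ℝ, S.indicator (1 : Pl → ℝ≥0∞) (pt a b) := by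
    intro a ha
    have h3 : volume F = volume ((fun b : ℝ => b + -(s * a)) ⁻¹' F) := by
      rw [measure_preimage_add_right]
    have hFm' : MeasurableSet ((fun b : ℝ => b + -(s * a)) ⁻¹' F) :=
      (measurable_id.add_const _) hFm
    rw [h3, ← lintegral_indicator_one hFm']
    refine lintegral_mono fun b => ?_
    by_cases hb : b ∈ (fun b : ℝ => b + -(s * a)) ⁻¹' F
    · have hmem : pt a b ∈ S := by
        have hb' : b + -(s * a) ∈ F := hb
        have hp : pr s (pt a b) = b + -(s * a) := by
          rw [pr, (hpt a b).1, (hpt a b).2]; ring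
        refine ⟨⟨?_, ?_⟩, ?_⟩
        · rw [(hpt a b).1, abs_le]
          constructor <;> linarith [ha.1, ha.2]
        · have h4 := hFs hb'
          rw [pr] at h4
          have h5 : |s * (a - x 0)| ≤ h := by
            rw [abs_mul]
            have h6 : |a - x 0| ≤ h := by
              rw [abs_le]
              constructor <;> linarith [ha.1, ha.2]
            calc |s| * |a - x 0| ≤ 1 * h := mul_le_mul hs h6 (abs_nonneg _) (by norm_num)
              _ = h := one_mul h
          rw [abs_le] at h5
          rw [(hpt a b).2, abs_le]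
          constructor <;> nlinarith [h4.1, h4.2, h5.1, h5.2]
        · show pr s (pt a b) ∈ F
          rw [hp]; exact hb'
      rw [indicator_of_mem hb, indicator_of_mem hmem]
      exact le_rfl
    · rw [indicator_of_notMem hb]
      exact bot_le
  calc ENNReal.ofReal (2 * h) * volume F = ∫⁻ _ in Icc (x 0 - h) (x 0 + h), volume F := by
        rw [setLIntegral_const, Real.volume_Icc, mul_comm]
        congr 2
        ring
    _ ≤ ∫⁻ a in Icc (x 0 - h) (x 0 + h), ∫⁻ b : ℝ, S.indicator (1 : Pl → ℝ≥0∞) (pt a b) :=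
        setLIntegral_mono' measurableSet_Icc h2
    _ ≤ ∫⁻ a : ℝ, ∫⁻ b : ℝ, S.indicator (1 : Pl → ℝ≥0∞) (pt a b) := setLIntegral_le_lintegral _ _

end Pool.Agent.Helper86.RG
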